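import Pool.Agent.W528.HS.Stm

set_option autoImplicit false

namespace Pool.Agent.W804.HS.RD

theorem not_unit (E : Type) [Field E] [CharZero E] (p : ℕ) (hp : p.Prime) :
    ¬ IsUnit ((p : ℕ) : (integralClosure ℤ E).toSubring) := by
  intro hu
  obtain ⟨u, hu'⟩ := hu.exists_right_inv
  have h1 : (p : E) * (u : E) = 1 := by
    have h := congrArg (fun x : (integralClosure ℤ E).toSubring => (x : E)) hu'
    simpa using h
  have h2 : IsIntegral ℤ (u : E) := u.2
  have hp0 : (p : E) ≠ 0 := by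
    intro h
    rw [h, zero_mul] at h1
    exact zero_ne_one h1
  have h3 : (u : E) = algebraMap ℚ E ((p : ℚ)⁻¹) := by
    rw [map_inv₀, map_natCast]
    exact eq_inv_of_mul_eq_one_right h1
  rw [h3] at h2
  have h4 : IsIntegral ℤ ((p : ℚ)⁻¹) :=
    (isIntegral_algebraMap_iff (algebraMap ℚ E).injective).1 h2
  obtain ⟨z, hz⟩ := IsIntegrallyClosed.isIntegral_iff.1 h4
  have hpq : (p : ℚ) ≠ 0 := by exact_mod_cast hp.ne_zero
  have h5 : (z : ℚ) * (p : ℚ) = 1 := by
    have h6 : (z : ℚ) = (p : ℚ)⁻¹ := by simpa using hz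
    rw [h6, inv_mul_cancel₀ hpq]
  have h7 : z * (p : ℤ) = 1 := by exact_mod_cast h5
  have h8 : (p : ℤ) ∣ 1 := ⟨z, by rw [mul_comm]; exact h7.symm⟩
  have h9 : p ∣ 1 := by exact_mod_cast h8
  exact hp.one_lt.ne' (Nat.dvd_one.1 h9)

theorem main : Pool.Agent.W528.HS.RD := by
  intro E _ _ p hp
  have hnu := not_unit E p hp
  have hne : Ideal.span {((p : ℕ) : (integralClosure ℤ E).toSubring)} ≠ ⊤ := by
    rw [Ne, Ideal.span_singleton_eq_top]
    exact hnu
  obtain ⟨m, hm, hle⟩ := Ideal.exists_le_maximal _ hne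
  let _ : Field ((integralClosure ℤ E).toSubring ⧸ m) := Ideal.Quotient.field m
  have h0 : ((p : ℕ) : (integralClosure ℤ E).toSubring ⧸ m) = 0 := by
    rw [← map_natCast (Ideal.Quotient.mk m) p]
    rw [Ideal.Quotient.eq_zero_iff_mem]
    exact hle (Ideal.mem_span_singleton_self _)
  have hchar : CharP ((integralClosure ℤ E).toSubring ⧸ m) p := by
    obtain ⟨q, hq⟩ := CharP.exists ((integralClosure ℤ E).toSubring ⧸ m)
    have h1 : q ∣ p := (CharP.cast_eq_zero_iff _ q p).1 h0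
    rcases (Nat.dvd_prime hp).1 h1 with h2 | h2
    · exact absurd h2 (CharP.char_ne_one ((integralClosure ℤ E).toSubring ⧸ m) q)
    · rw [← h2]
      exact hq
  exact ⟨(integralClosure ℤ E).toSubring ⧸ m, inferInstance, hchar, ⟨Ideal.Quotient.mk m⟩⟩

end Pool.Agent.W804.HS.RD
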